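import Pool.Agent.Work.MP_92a29d_cert.g7331x2_J0.O
import Pool.Agent.Work.MP_92a29d_cert.g7331x2_J0.J0
import Pool.Agent.Work.MP_92a29d_cert.g7331x2_J0.J1
import Pool.Agent.Work.MP_92a29d_cert.g7331x2_J0.J2
import Pool.Agent.Work.MP_92a29d_cert.g7331x2_J0.J3
import Pool.Agent.Work.MP_92a29d_cert.g7331x2_J0.J4
import Pool.Agent.Work.MP_92a29d_cert.g7331x2_J0.J5

/-! The instance has no model (generated). -/

set_option autoImplicit false
set_option maxRecDepth 100000

namespace Pool.Agent.Work.MP_92a29d_cert.g7331x2_J0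

open Pool.Agent.Work.MP_92a29d_co_h93 Pool.Agent.Work.MP_92a29d_co_h45

theorem hK : K0 = 2 ^ 1778 := by decide +kernel

theorem hA : A0 = 2 ^ (1778 - 12) - 2 ^ 12 := by decide +kernel

theorem hL : L 19444 = 0 := by decide +kernel

theorem unsat {M : Model} : ¬ IsModelX Pool.Agent.Work.MP_92a29d_co.Place.g7331x2_J0 M := by
  intro hM
  obtain ⟨τ, hz, hOM⟩ := Pool.Agent.Work.MP_92a29d_co_h45.OM_g7331x2_J0.om_sound hM
  have h0 := origs_sound hz hA hOM okO
  have h1 := job_sound hz (by decide) hK hA ok0 (by decide) h0 sz0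
  have h2 := job_sound hz (by decide) hK hA ok1 (by decide) h1 sz1
  have h3 := job_sound hz (by decide) hK hA ok2 (by decide) h2 sz2
  have h4 := job_sound hz (by decide) hK hA ok3 (by decide) h3 sz3
  have h5 := job_sound hz (by decide) hK hA ok4 (by decide) h4 sz4
  have h6 := job_sound hz (by decide) hK hA ok5 (by decide) h5 sz5
  have h7 := job_sound hz (by decide) hK hA ok6 (by decide) h6 sz6
  have h8 := job_sound hz (by decide) hK hA ok7 (by decide) h7 sz7
  have h9 := job_sound hz (by decide) hK hA ok8 (by decide) h8 sz8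
  have h10 := job_sound hz (by decide) hK hA ok9 (by decide) h9 sz9
  have h11 := job_sound hz (by decide) hK hA ok10 (by decide) h10 sz10
  exact not_mt hL (h11 19444 (by decide))

end Pool.Agent.Work.MP_92a29d_cert.g7331x2_J0
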